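import Pool.Agent.Run7.h418.R.SpEq

/-!
MP_c6ff8d_ag, Q1: Lang's conjecture for projective varieties with a family of symmetric
differentials which generates a symmetric power of the cotangent sheaf.
-/

set_option autoImplicit false

open Pool.Agent.W602.GT Pool.Agent.N155 Run7.h418

namespace Pool.Agent.Results.MP_c6ff8d_ag.GeneratedSymmetricDifferentials

/-- Let `X = {F = 0}` be a complex projective variety and suppose that finitely many symmetric
differentials `σ j` of degree `m > 0` generate `Sᵐ Ω` on `X`. Then all holomorphic maps from the
complex plane to `X` are constant if and only if all closed subvarieties of positive dimension of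
`X` are of general type. -/
theorem result {n m : ℕ} {ι κ : Type} [Fintype κ] {F : ι → MvPolynomial (Fin (n + 1)) ℂ}
    (hF : ∀ i, IsForm (F i)) (hm : 0 < m)
    {σ : κ → (Fin (n + 1) → ℂ) → (Fin (n + 1) → ℂ) → ℂ} (hσ : ∀ j, SymForm F m (σ j))
    (hgen : Generates F m σ) : BrodyHyperbolic F ↔ AllSubGeneral F :=
  R.brody_iff hF hm hσ hgen

end Pool.Agent.Results.MP_c6ff8d_ag.GeneratedSymmetricDifferentials
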