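import Pool.Agent.Run7.h418.Thm

/-!
MP_c6ff8d_ag, Q1: Lang's conjecture for projective varieties with an immersive family of symmetric
differentials.
-/

set_option autoImplicit false

open Pool.Agent.W602.GT Pool.Agent.N155 Run7.h418

namespace Pool.Agent.Results.MP_c6ff8d_ag.SymmetricDifferentials

/-- Let `X = {F = 0}` be a complex projective variety with an immersive finite family of symmetric
differentials `σ j` of positive degrees `m j`. If all closed subvarieties of positive dimension of
`X` are of general type, then all holomorphic maps from the complex plane to `X` are constant. -/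
theorem result {n : ℕ} {ι κ : Type} [Finite κ] {F : ι → MvPolynomial (Fin (n + 1)) ℂ}
    (hF : ∀ i, IsForm (F i)) {m : κ → ℕ} (hm : ∀ j, 0 < m j)
    {σ : κ → (Fin (n + 1) → ℂ) → (Fin (n + 1) → ℂ) → ℂ} (hσ : ∀ j, SymForm F (m j) (σ j))
    (him : Immersive F σ) (hall : AllSubGeneral F) : BrodyHyperbolic F :=
  brody_of_general hF hm hσ him hall

end Pool.Agent.Results.MP_c6ff8d_ag.SymmetricDifferentials
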